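import Pool.Agent.P.MP_9167e9_an.StG

/-!
The module ANCH, part one: lifts, the process and the labels of bottom walls.
-/

noncomputable section
open scoped Classical

namespace Pool.Agent.P.MP_9167e9_an

namespace Anch

theorem sd_le {α : Type} {i j : DecidableEq α} {s t : Finset α} {m : ℕ}
    (h : (@SDiff.sdiff _ (@Finset.instSDiff _ i) s t).card ≤ m) :
    (@SDiff.sdiff _ (@Finset.instSDiff _ j) s t).card ≤ m := by
  obtain rfl : i = j := Subsingleton.elim _ _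
  exact h

/-- Four kinds of anchors. -/
def pack {α β γ : Type} (s1 : Finset α) (s2 : Finset β) (s3 : Finset γ) (s4 : Finset α) :
    Finset (α ⊕ β ⊕ γ ⊕ α) := s1.disjSum (s2.disjSum (s3.disjSum s4))

/-- Their weights. -/
def wt {α β γ : Type} (r : ℝ) : α ⊕ β ⊕ γ ⊕ α → ℝ :=
  Sum.elim (fun _ => 1) (Sum.elim (fun _ => 1) (Sum.elim (fun _ => 1) fun _ => r))

theorem loss {α β γ : Type} [Fintype α] [DecidableEq (α ⊕ β ⊕ γ ⊕ α)] (r : ℝ) (hr : 0 ≤ r)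
    (hr' : Fintype.card α * r ≤ 1) (s1 s1' : Finset α) (s2 s2' : Finset β) (s3 s3' : Finset γ)
    (s4 s4' : Finset α) :
    ∑ y ∈ pack s1 s2 s3 s4 \ pack s1' s2' s3' s4', wt r y ≤
      s1.card + s2.card + (s3 \ s3').card + 1 := by
  have e : pack s1 s2 s3 s4 \ pack s1' s2' s3' s4' =
      pack (s1 \ s1') (s2 \ s2') (s3 \ s3') (s4 \ s4') := by
    ext y
    rcases y with y | y | y | y <;> simp [pack]
  rw [e]
  simp only [pack, wt, Finset.sum_disjSum, Sum.elim_inl, Sum.elim_inr, Finset.sum_const,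
    nsmul_eq_mul, mul_one]
  have h1 : ((s1 \ s1').card : ℝ) ≤ s1.card := by
    exact_mod_cast Finset.card_le_card Finset.sdiff_subset
  have h2 : ((s2 \ s2').card : ℝ) ≤ s2.card := by
    exact_mod_cast Finset.card_le_card Finset.sdiff_subset
  have h4 : ((s4 \ s4').card : ℝ) * r ≤ Fintype.card α * r := by
    gcongr
    exact Finset.card_le_univ _
  linarith

theorem mass {α β γ : Type} (r : ℝ) (hr : 0 ≤ r) (s1 : Finset α) (s2 : Finset β) (s3 : Finset γ)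
    (s4 : Finset α) : (s3.card : ℝ) ≤ ∑ y ∈ pack s1 s2 s3 s4, wt r y := by
  simp only [pack, wt, Finset.sum_disjSum, Sum.elim_inl, Sum.elim_inr, Finset.sum_const,
    nsmul_eq_mul, mul_one]
  have : 0 ≤ (s4.card : ℝ) * r := by positivity
  have : (0 : ℝ) ≤ s1.card := by positivity
  have : (0 : ℝ) ≤ s2.card := by positivity
  linarith

variable {P : Prm} {F : Set (Cell P)} {c : Cell P} {hc : c ∈ F}
  {w : WS (PP F) (Wall (adj F) (ZMod P.h)) (PC F)}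

theorem lab_aw (pi : PInst w) (a : Wall (adj F) (ZMod P.h)) (g : PP F) : (w.aw a g).1 = a.1 := by
  obtain ⟨f, q⟩ := a
  obtain ⟨x, rfl⟩ := Quotient.exists_rep q
  exact (congrArg Sigma.fst (pi.gp.aw_eq f x g) :)

theorem small_cell (pi : PInst w) (g1 : Gam1 F) (num : NumAdm F) (hc : c ∈ F) (Q : PC F)
    (h : w.g Q < c.g ^ 4) : w.δ Q ≤ c.δ0 ∧ ∃ T : Finset (Lm F), T.card ≤ c.δ0 ∧
      (∀ a, w.Cross a (w.cell Q) → a.1 ∈ T) ∧ ∀ e ∈ T, ∀ f ∈ T, dG F e.1 f.1 ≤ c.δ0 := by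
  rw [pi.g_eq] at h
  rw [pi.δ_eq, pi.cell_eq]
  obtain ⟨⟨e, E, C⟩, he, δ, q, hE, hC⟩ := Q
  have h1 : e.sz ≤ c.δ0 :=
    num.small c hc e he (lt_of_not_ge fun h' => absurd (num.bigP c hc e he h') (not_le.2 h))
  obtain ⟨h2, h3⟩ := g1.EP_fin e he δ
  refine ⟨h1, h2.toFinset, ?_, fun a ha => ?_, fun a ha b hb => ?_⟩
  · rw [← Set.ncard_eq_toFinset_card _ h2]
    exact h3.trans h1
  · have hC' : C = pc (adj F) (EP F e δ) q := hC
    have ha' : w.Cross a C := ha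
    rw [hC'] at ha'
    exact h2.mem_toFinset.2 ((pi.gp.cross _ _ _).1 ha').1
  · exact (g1.EP_diam e he δ a (h2.mem_toFinset.1 ha) b (h2.mem_toFinset.1 hb)).trans h1

theorem cls_mul (pi : PInst w) (br : BrOut F c hc w) (x : PP F) {k : PP F} (hk : k ∈ w.KK) :
    cls F c (x * k) = cls F c x :=
  ((br.cls_eq x (x * k)).2 ⟨k, pi.KK_eq ▸ hk, 1, one_mem _, (mul_one _).symm⟩).symm

/-- The process along a move. -/
theorem proc (pi : PInst w) (br : BrOut F c hc w) (g1 : Gam1 F) (num : NumAdm F) {t : ℕ}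
    (ht : 20 * t < c.g ^ 4) {γ : Gam F} {x : PP F} (hx : w.Min (pcl F c hc 1 1) x) {z : Zm F c}
    (h : Cl (am F c) t (γ, cls F c x) z) : dG F γ z.1 ≤ t ∧ ∃ y, cls F c y = z.2 ∧
      w.Good (pcl F c hc 1 1) y ∧
      (∀ a ∈ w.WB (pcl F c hc 1 1) x, t + 2 * t * c.δ0 < dG F γ a.1.1 →
        a ∈ w.WB (pcl F c hc 1 1) y) ∧
      (∀ a ∈ w.WB (pcl F c hc 1 1) y, a ∈ w.WB (pcl F c hc 1 1) x ∨
        dG F γ a.1.1 ≤ t + 2 * t * c.δ0) ∧
      (w.WB (pcl F c hc 1 1) x \ w.WB (pcl F c hc 1 1) y).card ≤ 2 * t + 2 * t * c.δ0 ∧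
      (w.WB (pcl F c hc 1 1) y \ w.WB (pcl F c hc 1 1) x).card ≤ t + 2 * t * c.δ0 := by
  obtain ⟨h1, y, h2, h3, h4⟩ := br.move t γ x z h
  obtain ⟨k, hk, a1, a2, a3, a4, a5⟩ := pi.out.process (pcl F c hc 1 1) x y t c.δ0
    (fun i a => dG F γ a.1.1 ≤ t + i * c.δ0) hx h3
    (fun i a h => h.trans (by rw [add_mul]; omega))
    (fun i a k _ h => by rwa [lab_aw pi]) (fun a ha => (h4 a ha).trans (by omega))
    (fun Q hQ => by
      obtain ⟨b1, T, -, b2, b3⟩ := small_cell pi g1 num hc Q (hQ.trans_lt ht)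
      refine ⟨b1, fun i a a' ha h ha' => ?_⟩
      have := g1.dG_tri γ a.1.1 a'.1.1
      have := b3 _ (b2 a ha) _ (b2 a' ha')
      rw [add_mul]
      omega)
  exact ⟨h1, y * k, by rw [cls_mul pi br y hk, h2], a1, fun a ha h => a2 a ha (not_le.2 h), a3,
    sd_le a4, sd_le a5⟩

variable (hc w) in
/-- The distance of a class from the base cell. -/
def Dn (n : NN F ⧸ As F c) : ℕ :=
  sInf {m | ∃ x, cls F c x = n ∧ (w.WB (pcl F c hc 1 1) x).card = m}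

theorem Dn_le (x : PP F) : Dn hc w (cls F c x) ≤ (w.WB (pcl F c hc 1 1) x).card :=
  Nat.sInf_le ⟨x, rfl, rfl⟩

theorem Dn_ex (pi : PInst w) (br : BrOut F c hc w) (n : NN F ⧸ As F c) : ∃ x, cls F c x = n ∧
    w.Min (pcl F c hc 1 1) x ∧ (w.WB (pcl F c hc 1 1) x).card = Dn hc w n := by
  obtain ⟨x0, h0⟩ := br.cls_surj n
  obtain ⟨x, h1, h2⟩ := Nat.sInf_mem
    (s := {m | ∃ x, cls F c x = n ∧ (w.WB (pcl F c hc 1 1) x).card = m}) ⟨_, x0, h0, rfl⟩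
  refine ⟨x, h1, fun k hk => ?_, h2⟩
  rw [h2]
  exact Nat.sInf_le ⟨x * k, by rw [cls_mul pi br x hk, h1], rfl⟩

variable (hc w) in
/-- The labels of bottom walls of good lifts. -/
def Sn (n : NN F ⧸ As F c) : Set (Lm F) :=
  {f | ∃ x, cls F c x = n ∧ w.Good (pcl F c hc 1 1) x ∧ ∃ a ∈ w.Bot (pcl F c hc 1 1) x, a.1 = f}

theorem bot_mul (pi : PInst w) {B : PC F} {g : PP F} (hg : w.ac B g = B) {x : PP F}
    {a : Wall (adj F) (ZMod P.h)} (ha : a ∈ w.Bot B x) : w.aw a g ∈ w.Bot B (x * g) := by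
  have := (pi.out.Bot_ac B x g a).2 ha
  rwa [hg] at this

theorem Sn_sub (pi : PInst w) (br : BrOut F c hc w) (g1 : Gam1 F) (num : NumAdm F)
    (hg : 5 < c.g) {x : PP F} (hx : w.Good (pcl F c hc 1 1) x)
    (hD : (w.WB (pcl F c hc 1 1) x).card ≤ 2 * c.g ^ 3) : ∃ T : Finset (Lm F), T.card ≤ c.δ0 ∧
      ∀ f ∈ Sn hc w (cls F c x), f ∈ (w.Bot (pcl F c hc 1 1) x).image Sigma.fst ∪ T := by
  set B := pcl F c hc 1 1 with hB
  have hT : ∃ T : Finset (Lm F), T.card ≤ c.δ0 ∧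
      ∀ Q a, w.Heavy B Q x → w.Adj B a → w.Cross a (w.cell Q) → a.1 ∈ T := by
    by_cases h : ∃ Q, w.Heavy B Q x
    · obtain ⟨Q, hQ⟩ := h
      obtain ⟨Q0, h0, h1⟩ := pi.out.lowest B x Q hQ
      have h2 : w.run Q0 (w.π B x) x ≤ (w.WB B x).card := Finset.card_le_card fun a ha =>
        ((pi.pre.gate_W _ _ _ _ _ (w.π_gate Q0 _) (w.π_gate Q0 _) a).1 ha).1
      have h3 : w.g Q0 < c.g ^ 4 := by
        have h4 : 2 * w.g Q0 ≤ 5 * w.run Q0 (w.π B x) x := h0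
        have h5 : 5 * c.g ^ 3 < c.g * c.g ^ 3 :=
          Nat.mul_lt_mul_of_pos_right hg (pow_pos (by omega) 3)
        rw [pow_succ' c.g 3]
        omega
      obtain ⟨-, T, b1, b2, -⟩ := small_cell pi g1 num hc Q0 h3
      exact ⟨T, b1, fun Q a q1 q2 q3 => b2 a (h1 Q a q1 q2 q3)⟩
    · exact ⟨∅, Nat.zero_le _, fun Q a q1 => (h ⟨Q, q1⟩).elim⟩
  obtain ⟨T, h1, h2⟩ := hT
  refine ⟨T, h1, ?_⟩
  rintro f ⟨x', e, hx', a, ha, rfl⟩
  obtain ⟨k, hk, b, hb, rfl⟩ := (br.cls_eq x x').1 e.symm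
  have hb' := br.ac_base b⁻¹ (inv_mem hb)
  have a1 : w.Good B (x * k) := by
    have := pi.out.good_ac B _ b⁻¹ hx'
    rwa [hb', mul_inv_cancel_right] at this
  have a2 := bot_mul pi hb' ha
  rw [mul_inv_cancel_right] at a2
  rw [← lab_aw pi a b⁻¹, Finset.mem_union]
  rcases pi.out.cons B x k (pi.KK_eq ▸ hk) hx a1 with h | ⟨Q, α, hα, q1, q2⟩
  · have a3 := bot_mul pi (w.K_fix B _ (inv_mem h)) a2
    rw [mul_inv_cancel_right] at a3
    exact Or.inl (Finset.mem_image.2 ⟨_, a3, lab_aw pi _ _⟩)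
  · have a3 := bot_mul pi (w.K_fix B _ hα) a2
    rw [← lab_aw pi _ α]
    by_cases h : w.Cross (w.aw (w.aw a b⁻¹) α) (w.cell Q)
    · exact Or.inr (h2 Q _ q1 (Finset.mem_filter.1 a3).2 h)
    · exact Or.inl (Finset.mem_image_of_mem _ (pi.out.bot_keep B Q _ _ _ q2 q1 a3 h))

variable (hc w) in
/-- The anchors of the third kind. -/
def A3 (n : NN F ⧸ As F c) : Finset (Lm F) :=
  if h : Dn hc w n ≤ 2 * c.g ^ 3 ∧ (Sn hc w n).Finite then h.2.toFinset else ∅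

theorem A3_sub {n : NN F ⧸ As F c} {f : Lm F} (h : f ∈ A3 hc w n) : f ∈ Sn hc w n := by
  unfold A3 at h
  split_ifs at h with h'
  · exact h'.2.mem_toFinset.1 h
  · simp at h

theorem A3_mem (pi : PInst w) (br : BrOut F c hc w) (g1 : Gam1 F) (num : NumAdm F)
    (hg : 5 < c.g) {x : PP F} (hx : w.Good (pcl F c hc 1 1) x)
    (hD : (w.WB (pcl F c hc 1 1) x).card ≤ 2 * c.g ^ 3) {a : Wall (adj F) (ZMod P.h)}
    (ha : a ∈ w.Bot (pcl F c hc 1 1) x) : a.1 ∈ A3 hc w (cls F c x) := by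
  obtain ⟨T, -, h⟩ := Sn_sub pi br g1 num hg hx hD
  have h' : Dn hc w (cls F c x) ≤ 2 * c.g ^ 3 ∧ (Sn hc w (cls F c x)).Finite :=
    ⟨(Dn_le x).trans hD, (Finset.finite_toSet _).subset h⟩
  rw [A3, dif_pos h', Set.Finite.mem_toFinset]
  exact ⟨x, rfl, hx, a, ha, rfl⟩

theorem A3_card (pi : PInst w) (br : BrOut F c hc w) (g1 : Gam1 F) (num : NumAdm F)
    (hg : 5 < c.g) (n : NN F ⧸ As F c) : (A3 hc w n).card ≤ 2 * c.g ^ 3 + c.δ0 := by
  by_cases h : Dn hc w n ≤ 2 * c.g ^ 3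
  · obtain ⟨x, rfl, h1, h2⟩ := Dn_ex pi br n
    obtain ⟨T, h3, h4⟩ := Sn_sub pi br g1 num hg (pi.out.min_good _ _ h1) (h2.trans_le h)
    refine (Finset.card_le_card fun f hf => h4 f (A3_sub hf)).trans
      ((Finset.card_union_le _ _).trans (add_le_add (Finset.card_image_le.trans ?_) h3))
    exact (Finset.card_filter_le _ _).trans (h2.trans_le h)
  · rw [A3, dif_neg fun h' => h h'.1]
    exact Nat.zero_le _

theorem A3_loss (pi : PInst w) (br : BrOut F c hc w) (g1 : Gam1 F) (num : NumAdm F)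
    (hg : 5 < c.g) {x y : PP F} (hx : w.Good (pcl F c hc 1 1) x) (hy : w.Good (pcl F c hc 1 1) y)
    (hD : (w.WB (pcl F c hc 1 1) x).card ≤ 2 * c.g ^ 3)
    (hD' : (w.WB (pcl F c hc 1 1) y).card ≤ 2 * c.g ^ 3) :
    (A3 hc w (cls F c x) \ A3 hc w (cls F c y)).card ≤
      (w.WB (pcl F c hc 1 1) x \ w.WB (pcl F c hc 1 1) y).card + c.δ0 := by
  obtain ⟨T, h3, h4⟩ := Sn_sub pi br g1 num hg hx hD
  refine (Finset.card_le_card (t := (w.WB (pcl F c hc 1 1) x \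
    w.WB (pcl F c hc 1 1) y).image Sigma.fst ∪ T) fun f hf => ?_).trans
      ((Finset.card_union_le _ _).trans (add_le_add Finset.card_image_le h3))
  rw [Finset.mem_sdiff] at hf
  rcases Finset.mem_union.1 (h4 f (A3_sub hf.1)) with h | h
  · obtain ⟨a, ha, rfl⟩ := Finset.mem_image.1 h
    refine Finset.mem_union_left _ (Finset.mem_image_of_mem _ (Finset.mem_sdiff.2
      ⟨(Finset.mem_filter.1 ha).1, fun h' => hf.2 (A3_mem pi br g1 num hg hy hD' ?_)⟩))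
    exact Finset.mem_filter.2 ⟨h', (Finset.mem_filter.1 ha).2⟩
  · exact Finset.mem_union_right _ h

/-- A chosen bottom wall below every wall. -/
theorem bot_fun (pi : PInst w) (B : PC F) (x : PP F) :
    ∃ β : Wall (adj F) (ZMod P.h) → Wall (adj F) (ZMod P.h), ∀ a ∈ w.WB B x, ∀ y,
      a ∈ w.WB B y → β a ∈ w.Bot B y := by
  have : ∀ a, ∃ b, a ∈ w.WB B x → ∀ y, a ∈ w.WB B y → b ∈ w.Bot B y := fun a => by
    by_cases h : a ∈ w.WB B x
    · obtain ⟨b, h1, h2⟩ := pi.out.bot_ex B x a h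
      exact ⟨b, fun _ y hy => Finset.mem_filter.2 ⟨h2 y hy, h1⟩⟩
    · exact ⟨a, fun h' => (h h').elim⟩
  choose β hβ using this
  exact ⟨β, hβ⟩

end Anch

end Pool.Agent.P.MP_9167e9_an
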