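import Pool.Agent.P.MP_9167e9_an.Anch.Lem

/-!
The module ANCH, part two: the anchors.
-/

noncomputable section
open scoped Classical

namespace Pool.Agent.P.MP_9167e9_an

namespace Anch

structure Nums (R g δ : ℕ) : Prop where
  g5 : 5 < g
  t1 : 20 * R < g ^ 4
  t2 : 20 * R ^ 2 < g ^ 4
  t3 : 20 * g ^ 2 < g ^ 4
  n1 : 2 * g ^ 2 + 2 * g ^ 2 * δ < g ^ 3
  n2 : R ^ 2 + 2 * R ^ 2 * δ ≤ 3 * R ^ 3
  n3 : 2 * R ^ 2 + 2 * R ^ 2 * δ ≤ 4 * R ^ 3
  n4 : 3 * R ^ 3 ≤ g ^ 3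
  n5 : 3 * R ^ 3 ≤ R ^ 12
  n6 : R ^ 2 ≤ R ^ 12
  n7 : R + 2 * R * δ ≤ g ^ 3
  n8 : R + 1 + (2 * R + 2 * R * δ + δ) + 1 + (R + 1 + (R + 2 * R * δ + δ) + 1) ≤ R ^ 3
  n9 : R + 1 + (2 * g ^ 3 + δ) + 1 + (R + 1 + (2 * g ^ 3 + δ) + 1) ≤ 5 * g ^ 3

theorem nums {R g δ : ℕ} (hR : 1000 ≤ R) (hδ : δ ≤ R) (hg : g = 10 ^ 4 * R ^ 15) : Nums R g δ := by
  have h1 : 10 ^ 4 * R ≤ g := hg ▸ Nat.mul_le_mul_left _ (Nat.le_self_pow (by norm_num) R)
  have r2 : 1000 * R ≤ R ^ 2 := by nlinarith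
  have r3 : 1000 * R ^ 2 ≤ R ^ 3 := by rw [pow_succ' R 2]; gcongr
  have r9 : 3 ≤ R ^ 9 := le_trans (by omega) (Nat.le_self_pow (by norm_num) R)
  have r12 : 3 * R ^ 3 ≤ R ^ 12 := by
    rw [show R ^ 12 = R ^ 9 * R ^ 3 by ring]
    gcongr
  have g2 : 10 ^ 8 * R ^ 2 ≤ g ^ 2 := by
    have := Nat.pow_le_pow_left h1 2
    rw [mul_pow] at this
    omega
  have g3 : 10 ^ 12 * R ^ 3 ≤ g ^ 3 := by
    have := Nat.pow_le_pow_left h1 3
    rw [mul_pow] at this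
    omega
  have g4 : 21 * g ^ 2 ≤ g ^ 4 := by
    rw [show g ^ 4 = g ^ 2 * g ^ 2 by ring]
    gcongr
    omega
  have d1 : 2 * R * δ ≤ 2 * R ^ 2 := by rw [sq, ← mul_assoc]; gcongr
  have d2 : 2 * R ^ 2 * δ ≤ 2 * R ^ 3 := by rw [pow_succ R 2, ← mul_assoc]; gcongr
  have d3 : g ^ 2 * (2 * δ + 3) ≤ g ^ 3 := by
    rw [pow_succ g 2]
    gcongr
    omega
  have d4 : g ^ 2 * (2 * δ + 3) = 2 * g ^ 2 * δ + 3 * g ^ 2 := by ring
  constructor <;> omega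

variable {P : Prm} {F : Set (Cell P)} {c : Cell P} {hc : c ∈ F}
  {w : WS (PP F) (Wall (adj F) (ZMod P.h)) (PC F)}

/-- If all lamps are near then the location follows the position. -/
theorem loc_near (pi : PInst w) (br : BrOut F c hc w) (g1 : Gam1 F) (g2 : Gam2 F c)
    (num : NumAdm F) (ht : HtOut c.τ c.g) (nm : Nums c.R c.g c.δ0) {γ : Gam F} {x : PP F}
    (hx : w.Min (pcl F c hc 1 1) x)
    (hn : ∀ a ∈ w.WB (pcl F c hc 1 1) x, dG F γ a.1.1 ≤ 3 * c.R ^ 3) {z : Zm F c}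
    (h : Cl (am F c) (c.R ^ 2) (γ, cls F c x) z) {y0 y : c.V × ZMod 2} (h0 : NP F c γ y0)
    (hy : LocP F c z y) : dC c.τ y y0 ≤ 14 * c.L := by
  obtain ⟨h1, x', e, a1, -, a3, -⟩ := proc pi br g1 num nm.t2 hx h
  rcases (w.WB (pcl F c hc 1 1) x').eq_empty_or_nonempty with h2 | ⟨a', ha'⟩
  · obtain ⟨l, b1, b2, -⟩ := br.word x'
    rw [h2, Finset.card_empty, List.length_eq_zero_iff] at b2
    subst b2
    rcases hy with ⟨-, hy⟩ | ⟨l, f, hy, -⟩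
    · have := g2.lip γ z.1 y0 y (h1.trans nm.n6) h0 hy
      rw [ht.d_symm]
      omega
    · simpa using hy.2 [] (e ▸ b1)
  · obtain ⟨β, hβ⟩ := bot_fun pi (pcl F c hc 1 1) x'
    have ha := hβ a' ha' x' ha'
    obtain ⟨y', hy'⟩ := g2.np_ex (β a').1.1
    have b1 := br.lemP z.1 x' y y' _ ha a1 (by rwa [e]) hy'
    have b2 : dG F γ (β a').1.1 ≤ 3 * c.R ^ 3 :=
      (a3 _ (Finset.mem_filter.1 ha).1).elim (hn _) fun h => h.trans nm.n2
    have b3 := g2.lip γ _ y0 y' (b2.trans nm.n5) h0 hy'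
    have b4 := ht.d_tri y y' y0
    rw [ht.d_symm] at b3
    omega

end Anch

open Anch in
theorem pAnch (hPW : StPW) (hBr : StBr) (hG1 : StGam1) (hG2 : StGam2) (hNum : StNum)
    (hBas : StBas) : StAnch := by
  intro P F adm c hc p hp
  obtain ⟨w, pi⟩ := hPW P F adm
  have br := hBr P F adm c hc w pi
  have g1 := hG1 P F adm
  have g2 := hG2 P F adm c hc
  have num := hNum P F adm
  have ok := adm.ok c hc
  have ht := (hBas P c (le_trans (by norm_num) adm.j_big) ok).ht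
  have nm : Nums c.R c.g c.δ0 := nums ok.R_big (num.one c hc).δ0_le rfl
  obtain ⟨Y2, h2, z2, t12⟩ := g2.t12
  choose pG hpG using g2.np_ex
  set A1 : Zm F c → Finset (c.V × ZMod 2) := fun z =>
    Finset.univ.filter fun y => dC c.τ (pG z.1) y ≤ c.δ0 ∧ dC c.τ (p z) y ≤ 100 * c.L with hA1
  set A2 : Zm F c → Finset Y2 := fun z =>
    (h2 z.1).toFinset.filter fun T => dC c.τ (p z) (z2 T) ≤ 100 * c.L with hA2
  set A4 : Zm F c → Finset (c.V × ZMod 2) := fun z =>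
    Finset.univ.filter fun y => dC c.τ (p z) y ≤ 100 * c.L with hA4
  have c1 : ∀ z, (A1 z).card ≤ c.R := fun z => by
    refine le_trans ?_ ((ht.ball (pG z.1) c.δ0).trans (num.one c hc).δ0_pow)
    rw [← Set.ncard_coe_finset]
    exact Set.ncard_le_ncard fun y hy => (Finset.mem_filter.1 hy).2.1
  have c2 : ∀ z, (A2 z).card ≤ 1 := fun z => by
    refine (Finset.card_filter_le _ _).trans ?_
    cases h2 z.1 <;> simp
  have hr : (0 : ℝ) ≤ 1 / (2 * Fintype.card c.V) := by positivity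
  have hr' : (Fintype.card (c.V × ZMod 2) : ℝ) * (1 / (2 * Fintype.card c.V)) ≤ 1 := by
    rw [Fintype.card_prod, ZMod.card, mul_one_div, mul_comm]
    push_cast
    exact div_self_le_one _
  have tri : ∀ z z' y, dC c.τ (p z) y ≤ 100 * c.L → dC c.τ (p z') y ≤ 100 * c.L →
      dC c.τ (p z) (p z') ≤ 400 * c.L := fun z z' y a b => by
    have := ht.d_tri (p z) y (p z')
    rw [ht.d_symm] at b
    omega
  have bot2 : ∀ (z z' : Zm F c) x x', ∀ a ∈ w.Bot (pcl F c hc 1 1) x,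
      ∀ a' ∈ w.Bot (pcl F c hc 1 1) x', a.1 = a'.1 → cls F c x = z.2 → cls F c x' = z'.2 →
      w.Good (pcl F c hc 1 1) x → w.Good (pcl F c hc 1 1) x' →
      dC c.τ (p z) (p z') ≤ 24 * c.L := fun z z' x x' a ha a' ha' e e1 e2 q1 q2 => by
    have b1 := br.lemP z.1 x (p z) _ a ha q1 (by rw [e1]; exact hp z) (hpG _)
    have b2 := br.lemP z'.1 x' (p z') _ a' ha' q2 (by rw [e2]; exact hp z') (hpG _)
    have := ht.d_tri (p z) (pG a.1.1) (p z')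
    rw [ht.d_symm, ← e] at b2
    omega
  refine ⟨(c.V × ZMod 2) ⊕ Y2 ⊕ Lm F ⊕ (c.V × ZMod 2),
    fun z => pack (A1 z) (A2 z) (A3 hc w z.2) (A4 z), wt (1 / (2 * Fintype.card c.V)),
    fun y => ?_, fun y z z' hy hy' => ?_, fun z hz => ?_⟩
  · rcases y with y | y | y | y <;> simp [wt]
  · rcases y with y | y | y | y <;> simp only [pack, Finset.inl_mem_disjSum,
      Finset.inr_mem_disjSum] at hy hy'
    · exact tri z z' y (Finset.mem_filter.1 hy).2.2 (Finset.mem_filter.1 hy').2.2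
    · exact tri z z' _ (Finset.mem_filter.1 hy).2 (Finset.mem_filter.1 hy').2
    · obtain ⟨x, e1, q1, a, ha, e⟩ := A3_sub hy
      obtain ⟨x', e2, q2, a', ha', e'⟩ := A3_sub hy'
      have := bot2 z z' x x' a ha a' ha' (e.trans e'.symm) e1 e2 q1 q2
      omega
    · exact tri z z' y (Finset.mem_filter.1 hy).2 (Finset.mem_filter.1 hy').2
  obtain ⟨γ, n⟩ := z
  obtain ⟨x, rfl, hx, -⟩ := Dn_ex pi br n
  have gx := pi.out.min_good _ _ hx
  obtain ⟨β, hβ⟩ := bot_fun pi (pcl F c hc 1 1) x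
  have ls : ∀ (z z' : Zm F c) (m : ℕ), (A3 hc w z.2 \ A3 hc w z'.2).card ≤ m →
      ∑ y ∈ @SDiff.sdiff _ (@Finset.instSDiff _ fun a b => Classical.propDecidable (a = b))
        (pack (A1 z) (A2 z) (A3 hc w z.2) (A4 z)) (pack (A1 z') (A2 z') (A3 hc w z'.2) (A4 z')),
        wt (1 / (2 * Fintype.card c.V)) y ≤ ((c.R + 1 + m + 1 : ℕ) : ℝ) := fun z z' m hm => by
    refine (@loss _ _ _ _ (fun a b => Classical.propDecidable (a = b)) _ hr hr' _ _ _ _ _ _ _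
      _).trans ?_
    have a1 := c1 z
    have a2 := c2 z
    have a3 : (@SDiff.sdiff _ (@Finset.instSDiff _ fun a b => Classical.propDecidable (a = b))
      (A3 hc w z.2) (A3 hc w z'.2)).card ≤ m := Anch.sd_le hm
    exact_mod_cast (by omega)
  by_cases hD : c.g ^ 3 ≤ (w.WB (pcl F c hc 1 1) x).card
  · refine Or.inr ⟨fun z' _ => ?_, Sum.inr (Sum.inr (Sum.inr (p (γ, cls F c x)))), rfl,
      fun z' h => ?_⟩
    · refine (add_le_add
        (ls _ z' _ ((Finset.card_le_card Finset.sdiff_subset).trans (A3_card pi br g1 num nm.g5 _)))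
        (ls z' _ _ ((Finset.card_le_card Finset.sdiff_subset).trans
          (A3_card pi br g1 num nm.g5 _)))).trans ?_
      exact_mod_cast nm.n9
    · obtain ⟨-, y, e, a1, -, -, a4, -⟩ := proc pi br g1 num nm.t3 hx h
      obtain ⟨a, ha, ha'⟩ : ∃ a ∈ w.WB (pcl F c hc 1 1) x, a ∈ w.WB (pcl F c hc 1 1) y := by
        by_contra hn
        rw [Finset.sdiff_eq_self_of_disjoint (Finset.disjoint_left.2 fun a b1 b2 =>
          hn ⟨a, b1, b2⟩)] at a4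
        have := nm.n1
        omega
      have := bot2 z' (γ, cls F c x) y x _ (hβ a ha y ha') _ (hβ a ha x ha) rfl e rfl a1 gx
      simp only [pack, Finset.inr_mem_disjSum]
      exact Finset.mem_filter.2 ⟨Finset.mem_univ _, by omega⟩
  have hD2 : (w.WB (pcl F c hc 1 1) x).card ≤ 2 * c.g ^ 3 := by omega
  have grow : ∀ y m, (w.WB (pcl F c hc 1 1) y \ w.WB (pcl F c hc 1 1) x).card ≤ m →
      m ≤ c.g ^ 3 → (w.WB (pcl F c hc 1 1) y).card ≤ 2 * c.g ^ 3 := fun y m a b => by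
    have := Finset.card_le_card_sdiff_add_card (s := w.WB (pcl F c hc 1 1) y)
      (t := w.WB (pcl F c hc 1 1) x)
    omega
  refine Or.inl ⟨fun z' h => ?_, ?_⟩
  · obtain ⟨-, y, e, a1, -, -, a4, a5⟩ := proc pi br g1 num nm.t1 hx h
    have hy := grow y _ a5 nm.n7
    have b1 := A3_loss pi br g1 num nm.g5 gx a1 hD2 hy
    have b2 := A3_loss pi br g1 num nm.g5 a1 gx hy hD2
    rw [e] at b1 b2
    refine (add_le_add (ls (γ, cls F c x) z' _ (b1.trans (add_le_add a4 le_rfl)))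
      (ls z' (γ, cls F c x) _ (b2.trans (add_le_add a5 le_rfl)))).trans ?_
    exact_mod_cast nm.n8
  have deep : ∀ a, (∀ y, (∀ a' ∈ w.WB (pcl F c hc 1 1) x, 3 * c.R ^ 3 < dG F γ a'.1.1 →
      a' ∈ w.WB (pcl F c hc 1 1) y) →
      (w.WB (pcl F c hc 1 1) x \ w.WB (pcl F c hc 1 1) y).card ≤ 4 * c.R ^ 3 →
      a ∈ w.Bot (pcl F c hc 1 1) y) → ∃ y, wt (1 / (2 * Fintype.card c.V)) y = 1 ∧
        ∀ z', Cl (am F c) (c.R ^ 2) (γ, cls F c x) z' →
          y ∈ pack (A1 z') (A2 z') (A3 hc w z'.2) (A4 z') := fun a ha => by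
    refine ⟨Sum.inr (Sum.inr (Sum.inl a.1)), rfl, fun z' h => ?_⟩
    obtain ⟨-, y, e, a1, a2, -, a4, a5⟩ := proc pi br g1 num nm.t2 hx h
    simp only [pack, Finset.inl_mem_disjSum, Finset.inr_mem_disjSum]
    rw [← e]
    exact A3_mem pi br g1 num nm.g5 a1 (grow y _ a5 (nm.n2.trans nm.n4))
      (ha y (fun a' b1 b2 => a2 a' b1 (nm.n2.trans_lt b2)) (a4.trans nm.n3))
  by_cases hn : ∀ a ∈ w.WB (pcl F c hc 1 1) x, dG F γ a.1.1 ≤ 3 * c.R ^ 3
  swap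
  · push Not at hn
    obtain ⟨a, ha, h⟩ := hn
    exact Or.inl (deep (β a) fun y b1 _ => hβ a ha y (b1 a ha h))
  by_cases hB : c.R ^ 4 ≤ (w.Bot (pcl F c hc 1 1) x).card
  · refine Or.inr (le_trans ?_ (mass _ hr _ _ _ _))
    have : (w.Bot (pcl F c hc 1 1) x).card ≤ (A3 hc w (cls F c x)).card :=
      Finset.card_le_card_of_injOn Sigma.fst (fun a ha => A3_mem pi br g1 num nm.g5 gx hD2 ha)
        fun a ha a' ha' e => (br.bot_adj x a ha a' ha').resolve_right fun h =>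
          g1.adj_irr a'.1 (e ▸ h)
    exact_mod_cast hB.trans this
  by_cases hW : 4 * c.R ^ 7 < (w.WB (pcl F c hc 1 1) x).card
  · obtain ⟨a, -, ha⟩ := Finset.exists_lt_card_fiber_of_mul_lt_card_of_maps_to
      (s := w.WB (pcl F c hc 1 1) x) (t := w.Bot (pcl F c hc 1 1) x) (f := β) (n := 4 * c.R ^ 3)
      (fun a ha => hβ a ha x ha) (lt_of_le_of_lt (by
        rw [show 4 * c.R ^ 7 = c.R ^ 4 * (4 * c.R ^ 3) by ring]
        exact Nat.mul_le_mul_right _ (not_le.1 hB).le) hW)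
    refine Or.inl (deep a fun y _ b2 => ?_)
    obtain ⟨a', q1, q2⟩ := Finset.exists_mem_notMem_of_card_lt_card (b2.trans_lt ha)
    obtain ⟨q3, rfl⟩ := Finset.mem_filter.1 q1
    exact hβ a' q3 y (by_contra fun h => q2 (Finset.mem_sdiff.2 ⟨q3, h⟩))
  have far : ∀ y, 4 * c.R ^ 3 < dG F γ (pos F c y) := fun y => by
    obtain ⟨l, b1, b2, b3⟩ := br.word x
    refine lt_of_not_ge fun h => hz ⟨⟨y, h⟩, l, b1, by omega, fun e he => ?_⟩
    obtain ⟨a, ha, e'⟩ := b3 e he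
    exact e' ▸ hn a ha
  have lc : ∀ z', Cl (am F c) (c.R ^ 2) (γ, cls F c x) z' → dG F γ z'.1 ≤ c.R ^ 2 ∧
      dC c.τ (p z') (pG γ) ≤ 14 * c.L := fun z' h =>
    ⟨(br.move _ _ _ _ h).1, loc_near pi br g1 g2 num ht nm hx hn h (hpG γ) (hp z')⟩
  rcases t12 γ far with h | ⟨T, h, h'⟩
  · refine Or.inl ⟨Sum.inl (pG γ), rfl, fun z' hz' => ?_⟩
    obtain ⟨b1, b2⟩ := lc z' hz'
    simp only [pack, Finset.inl_mem_disjSum]
    refine Finset.mem_filter.2 ⟨Finset.mem_univ _, ?_, by omega⟩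
    rw [ht.d_symm]
    exact h _ _ _ b1 (hpG _) (hpG _)
  · refine Or.inl ⟨Sum.inr (Sum.inl T), rfl, fun z' hz' => ?_⟩
    obtain ⟨b1, b2⟩ := lc z' hz'
    simp only [pack, Finset.inl_mem_disjSum, Finset.inr_mem_disjSum]
    have b3 := h' _ (hpG γ)
    have b4 := ht.d_tri (p z') (pG γ) (z2 T)
    exact Finset.mem_filter.2 ⟨by simp [h _ b1], by omega⟩

end Pool.Agent.P.MP_9167e9_an
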